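import Pool.Agent.helper55.VD.SpecE1

/-! # Project VD (MP_07c750_an), row EHC: the Laplacian is continuous, linear and real -/

set_option autoImplicit false

open scoped ContDiff Topology InnerProductSpace ComplexConjugate
open MeasureTheory Filter Set

namespace Pool.Agent.VD

noncomputable section

section

variable {d : ℕ} {G : V d → V d →L[ℝ] V d}

/-- the inner function -/
def EHC_F (G : V d → V d →L[ℝ] V d) (φ : V d → ℂ) (i : Fin d) (y : V d) : ℂ :=
  ((dens G y : ℝ) : ℂ) * fderiv ℝ φ y ((G y).inverse (EuclideanSpace.single i 1))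

theorem EHC_lap (φ : V d → ℂ) (x : V d) :
    lap G φ x = (((dens G x)⁻¹ : ℝ) : ℂ) * ∑ i : Fin d, fderiv ℝ (EHC_F G φ i) x (EuclideanSpace.single i 1) := rfl

theorem EHC_C1 (hEHD : EHD_stmt) (hG : IsMetric G) {φ : V d → ℂ} (hφ : ContDiff ℝ 2 φ) (i : Fin d) : ContDiff ℝ 1 (EHC_F G φ i) := by
  obtain ⟨-, h2, h3, -⟩ := hEHD d G hG
  have a : ContDiff ℝ 1 (fderiv ℝ φ) := hφ.fderiv_right (by norm_num)
  have b : ContDiff ℝ 1 (fun y => (G y).inverse (EuclideanSpace.single i (1 : ℝ))) := (h3.of_le (by norm_cast)).clm_apply contDiff_const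
  have c : ContDiff ℝ 1 (fun y => ((dens G y : ℝ) : ℂ)) := Complex.ofRealCLM.contDiff.comp (h2.of_le (by norm_cast))
  exact c.mul (a.clm_apply b)

theorem EHC_diff (hEHD : EHD_stmt) (hG : IsMetric G) {φ : V d → ℂ} (hφ : ContDiff ℝ 2 φ) (i : Fin d) : Differentiable ℝ (EHC_F G φ i) :=
  (EHC_C1 hEHD hG hφ i).differentiable (by norm_num)

end

theorem EHC_proof (hEHD : EHD_stmt) : EHC_stmt := by
  intro d G hG
  refine ⟨fun φ hφ => ⟨?_, ?_, ?_⟩, fun φ ψ hφ hψ x => ?_⟩
  · obtain ⟨h1, h2, -⟩ := hEHD d G hG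
    have h3 : lap G φ = fun x => (((dens G x)⁻¹ : ℝ) : ℂ) * ∑ i : Fin d, fderiv ℝ (EHC_F G φ i) x (EuclideanSpace.single i 1) := rfl
    rw [h3]
    refine Continuous.mul ?_ ?_
    · exact Complex.continuous_ofReal.comp (h2.continuous.inv₀ fun x => (h1 x).2.ne')
    · exact continuous_finsetSum _ fun i _ => ((EHC_C1 hEHD hG hφ i).continuous_fderiv (by norm_num)).clm_apply continuous_const
  · intro x
    have hc : ∀ f : V d → ℂ, ∀ y v, fderiv ℝ (fun z => conj (f z)) y v = conj (fderiv ℝ f y v) := by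
      intro f y v
      have h1 : fderiv ℝ (Complex.conjCLE ∘ f) y = (Complex.conjCLE : ℂ →L[ℝ] ℂ).comp (fderiv ℝ f y) := Complex.conjCLE.comp_fderiv
      exact congrArg (fun L : V d →L[ℝ] ℂ => L v) h1
    have hF : ∀ i, EHC_F G (fun y => conj (φ y)) i = fun y => conj (EHC_F G φ i y) := by
      intro i
      funext y
      show ((dens G y : ℝ) : ℂ) * fderiv ℝ (fun z => conj (φ z)) y _ = conj (((dens G y : ℝ) : ℂ) * fderiv ℝ φ y _)
      rw [hc, map_mul, Complex.conj_ofReal]
    rw [EHC_lap, EHC_lap, map_mul, Complex.conj_ofReal, map_sum]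
    congr 1
    refine Finset.sum_congr rfl fun i _ => ?_
    rw [hF, hc]
  · intro c x
    have hF : ∀ i, EHC_F G (fun y => c * φ y) i = fun y => c * EHC_F G φ i y := by
      intro i
      funext y
      show ((dens G y : ℝ) : ℂ) * fderiv ℝ (fun z => c * φ z) y _ = c * (((dens G y : ℝ) : ℂ) * fderiv ℝ φ y _)
      rw [fderiv_const_mul ((hφ.differentiable (by norm_num)).differentiableAt)]
      show ((dens G y : ℝ) : ℂ) * (c * fderiv ℝ φ y _) = _
      ring
    have h4 : ∑ i : Fin d, fderiv ℝ (EHC_F G (fun y => c * φ y) i) x (EuclideanSpace.single i 1) =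
        c * ∑ i : Fin d, fderiv ℝ (EHC_F G φ i) x (EuclideanSpace.single i 1) := by
      rw [Finset.mul_sum]
      refine Finset.sum_congr rfl fun i _ => ?_
      rw [hF, fderiv_const_mul ((EHC_diff hEHD hG hφ i).differentiableAt)]
      rfl
    rw [EHC_lap, EHC_lap, h4]
    ring
  · have hF : ∀ i, EHC_F G (fun y => φ y + ψ y) i = fun y => EHC_F G φ i y + EHC_F G ψ i y := by
      intro i
      funext y
      show ((dens G y : ℝ) : ℂ) * fderiv ℝ (fun z => φ z + ψ z) y _ = ((dens G y : ℝ) : ℂ) * fderiv ℝ φ y _ + ((dens G y : ℝ) : ℂ) * fderiv ℝ ψ y _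
      rw [fderiv_fun_add ((hφ.differentiable (by norm_num)).differentiableAt) ((hψ.differentiable (by norm_num)).differentiableAt)]
      show ((dens G y : ℝ) : ℂ) * (fderiv ℝ φ y _ + fderiv ℝ ψ y _) = _
      ring
    rw [EHC_lap, EHC_lap, EHC_lap, ← mul_add, ← Finset.sum_add_distrib]
    congr 1
    refine Finset.sum_congr rfl fun i _ => ?_
    rw [hF, fderiv_fun_add ((EHC_diff hEHD hG hφ i).differentiableAt) ((EHC_diff hEHD hG hψ i).differentiableAt)]
    rfl

end

end Pool.Agent.VD
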